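import Mathlib

set_option autoImplicit false

/-!
Finite probability weights, product weights, resampling of some coordinates, and the
finite minimax theorem in the form used for tournaments.
-/

namespace Pool.Agent.H51.Tour

open Finset

section Basic

variable {V : Type*} [Fintype V]

/-- Probability weights on a finite type. -/
def IsProb (w : V → ℝ) : Prop := (∀ v, 0 ≤ w v) ∧ ∑ v, w v = 1

open Classical in
/-- The weight of the set of points satisfying `P`. -/
noncomputable def pr (w : V → ℝ) (P : V → Prop) : ℝ :=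
  ∑ v, if P v then w v else 0

theorem pr_nonneg {w : V → ℝ} (hw : ∀ v, 0 ≤ w v) (P : V → Prop) : 0 ≤ pr w P := by
  classical
  refine Finset.sum_nonneg fun v _ => ?_
  have := hw v
  split_ifs <;> simp_all

theorem pr_le_add {w : V → ℝ} (hw : ∀ v, 0 ≤ w v) {P Q R : V → Prop}
    (h : ∀ v, P v → Q v ∨ R v) : pr w P ≤ pr w Q + pr w R := by
  classical
  unfold pr
  rw [← Finset.sum_add_distrib]
  refine Finset.sum_le_sum fun v _ => ?_
  have h0 := hw v
  have h1 := h v
  by_cases hP : P v <;> by_cases hQ : Q v <;> by_cases hR : R v <;> simp_all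

theorem pr_mono {w : V → ℝ} (hw : ∀ v, 0 ≤ w v) {P Q : V → Prop}
    (h : ∀ v, P v → Q v) : pr w P ≤ pr w Q := by
  classical
  unfold pr
  refine Finset.sum_le_sum fun v _ => ?_
  have h0 := hw v
  have h1 := h v
  by_cases hP : P v <;> by_cases hQ : Q v <;> simp_all

theorem pr_congr {w : V → ℝ} {P Q : V → Prop} (h : ∀ v, P v ↔ Q v) : pr w P = pr w Q := by
  classical
  unfold pr
  refine Finset.sum_congr rfl fun v _ => ?_
  simp [h v]

theorem pr_true (w : V → ℝ) : pr w (fun _ => True) = ∑ v, w v := by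
  simp [pr]

theorem pr_split (w : V → ℝ) (P Q : V → Prop) :
    pr w P = pr w (fun v => P v ∧ Q v) + pr w (fun v => P v ∧ ¬ Q v) := by
  classical
  unfold pr
  rw [← Finset.sum_add_distrib]
  refine Finset.sum_congr rfl fun v _ => ?_
  by_cases hP : P v <;> by_cases hQ : Q v <;> simp_all

theorem pr_compl {w : V → ℝ} (hw : IsProb w) (P : V → Prop) :
    pr w P + pr w (fun v => ¬ P v) = 1 := by
  classical
  unfold pr
  rw [← Finset.sum_add_distrib, ← hw.2]
  refine Finset.sum_congr rfl fun v _ => ?_
  by_cases hP : P v <;> simp_all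

theorem pr_le_one {w : V → ℝ} (hw : IsProb w) (P : V → Prop) : pr w P ≤ 1 := by
  have := pr_compl hw P
  have := pr_nonneg hw.1 (fun v => ¬ P v)
  linarith

theorem pr_eq (w : V → ℝ) (a : V) : pr w (fun v => v = a) = w a := by
  unfold pr
  rw [Finset.sum_eq_single a]
  · simp
  · intro b _ hb
    simp [hb]
  · simp

theorem le_pr {w : V → ℝ} (hw : ∀ v, 0 ≤ w v) {P : V → Prop} {a : V} (ha : P a) :
    w a ≤ pr w P := by
  classical
  rw [← pr_eq w a]
  exact pr_mono hw (fun v hv => hv ▸ ha)

/-- A finite union bound. -/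
theorem pr_exists_le {K : Type*} [Fintype K] {w : V → ℝ} (hw : ∀ v, 0 ≤ w v)
    (E : K → V → Prop) : pr w (fun v => ∃ k, E k v) ≤ ∑ k, pr w (E k) := by
  classical
  unfold pr
  rw [Finset.sum_comm]
  refine Finset.sum_le_sum fun v _ => ?_
  have hn : ∀ k ∈ (univ : Finset K), 0 ≤ (if E k v then w v else 0) := by
    intro k _
    have := hw v
    split_ifs <;> simp_all
  by_cases h : ∃ k, E k v
  · obtain ⟨k, hk⟩ := h
    have h1 := Finset.single_le_sum hn (mem_univ k)
    rw [if_pos hk] at h1
    rw [if_pos ⟨k, hk⟩]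
    exact h1
  · rw [if_neg h]
    exact Finset.sum_nonneg hn

/-- If the total weight of finitely many bad events is less than one, some point of positive
weight avoids them all. -/
theorem exists_good {K : Type*} [Fintype K] {w : V → ℝ} (hw : IsProb w)
    (E : K → V → Prop) (β : ℝ) (hE : ∀ k, pr w (E k) ≤ β)
    (hβ : (Fintype.card K : ℝ) * β < 1) :
    ∃ v, 0 < w v ∧ ∀ k, ¬ E k v := by
  classical
  by_contra hcon
  push Not at hcon
  have h1 : pr w (fun v => ∃ k, E k v) = 1 := by
    rw [← hw.2]
    unfold pr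
    refine Finset.sum_congr rfl fun v _ => ?_
    by_cases hv : 0 < w v
    · rw [if_pos (hcon v hv)]
    · have : w v = 0 := le_antisymm (not_lt.mp hv) (hw.1 v)
      simp [this]
  have h2 := pr_exists_le hw.1 E
  have h3 : ∑ k, pr w (E k) ≤ ∑ _k : K, β := Finset.sum_le_sum fun k _ => hE k
  rw [Finset.sum_const, Finset.card_univ, nsmul_eq_mul] at h3
  linarith

end Basic

section Product

variable {ι V : Type*} [Fintype ι] [DecidableEq ι] [Fintype V]

/-- Product weights on `ι → V`. -/
noncomputable def prodW (p : ι → V → ℝ) (f : ι → V) : ℝ := ∏ i, p i (f i)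

theorem prodW_prob {p : ι → V → ℝ} (hp : ∀ i, IsProb (p i)) : IsProb (prodW p) := by
  classical
  constructor
  · intro f
    exact Finset.prod_nonneg fun i _ => (hp i).1 _
  · unfold prodW
    have h := Finset.prod_univ_sum (fun _ : ι => (univ : Finset V)) (fun i v => p i v)
    rw [Fintype.piFinset_univ] at h
    rw [← h]
    exact Finset.prod_eq_one fun i _ => (hp i).2

omit [DecidableEq ι] in
theorem pos_of_prodW_pos {p : ι → V → ℝ} (hp : ∀ i, IsProb (p i)) {f : ι → V}
    (hf : 0 < prodW p f) (i : ι) : 0 < p i (f i) := by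
  rcases ((hp i).1 (f i)).lt_or_eq with h | h
  · exact h
  · exfalso
    have : prodW p f = 0 := Finset.prod_eq_zero (mem_univ i) h.symm
    linarith

/-- Probability of a rectangle. -/
theorem pr_rect_le {p : ι → V → ℝ} (hp : ∀ i, IsProb (p i)) (J : Finset ι)
    (Q : ι → V → Prop) (β : ℝ) (hQ : ∀ i ∈ J, pr (p i) (Q i) ≤ β) :
    pr (prodW p) (fun f => ∀ i ∈ J, Q i (f i)) ≤ β ^ J.card := by
  classical
  have h1 : pr (prodW p) (fun f => ∀ i ∈ J, Q i (f i)) =
      ∏ i, ∑ v, (if (i ∈ J → Q i v) then p i v else 0) := by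
    have h := Finset.prod_univ_sum (fun _ : ι => (univ : Finset V))
      (fun i v => if (i ∈ J → Q i v) then p i v else 0)
    rw [Fintype.piFinset_univ] at h
    rw [h]
    unfold pr prodW
    refine Finset.sum_congr rfl fun f _ => ?_
    by_cases hf : ∀ i ∈ J, Q i (f i)
    · rw [if_pos hf]
      refine Finset.prod_congr rfl fun i _ => ?_
      rw [if_pos (hf i)]
    · rw [if_neg hf]
      push Not at hf
      obtain ⟨i, hi, hq⟩ := hf
      symm
      apply Finset.prod_eq_zero (mem_univ i)
      rw [if_neg]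
      intro h
      exact hq (h hi)
  rw [h1]
  have h2 : ∏ i, ∑ v, (if (i ∈ J → Q i v) then p i v else 0) =
      ∏ i ∈ J, pr (p i) (Q i) := by
    rw [← Finset.prod_subset (Finset.subset_univ J)]
    · refine Finset.prod_congr rfl fun i hi => ?_
      unfold pr
      refine Finset.sum_congr rfl fun v _ => ?_
      simp [hi]
    · intro i _ hi
      simp [hi, (hp i).2]
  rw [h2, ← Finset.prod_const]
  exact Finset.prod_le_prod (fun i _ => pr_nonneg (hp i).1 _) hQ

/-- `f` with the coordinates in `J` replaced by those of `h`. -/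
def mix (J : ι → Prop) [DecidablePred J] (f h : ι → V) : ι → V :=
  fun i => if J i then h i else f i

omit [DecidableEq ι] [Fintype V] in
theorem prodW_mix (p : ι → V → ℝ) (J : ι → Prop) [DecidablePred J] (f h : ι → V) :
    prodW p (mix J f h) * prodW p (mix J h f) = prodW p f * prodW p h := by
  unfold prodW mix
  rw [← Finset.prod_mul_distrib, ← Finset.prod_mul_distrib]
  refine Finset.prod_congr rfl fun i _ => ?_
  by_cases hi : J i
  · simp [hi, mul_comm]
  · simp [hi]

/-- Resampling: the probability of `E` is at most `β` if it is so after fixing all coordinates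
outside `J`. -/
theorem pr_le_of_resample {p : ι → V → ℝ} (hp : ∀ i, IsProb (p i)) (J : ι → Prop)
    [DecidablePred J] (E : (ι → V) → Prop) (β : ℝ)
    (h : ∀ f, 0 < prodW p f → pr (prodW p) (fun g => 0 < prodW p g ∧ E (mix J f g)) ≤ β) :
    pr (prodW p) E ≤ β := by
  classical
  have hW := prodW_prob hp
  -- the involution
  let φ : ((ι → V) × (ι → V)) ≃ ((ι → V) × (ι → V)) :=
    { toFun := fun q => (mix J q.1 q.2, mix J q.2 q.1)
      invFun := fun q => (mix J q.1 q.2, mix J q.2 q.1)
      left_inv := by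
        rintro ⟨f, g⟩
        ext i <;> by_cases hi : J i <;> simp [mix, hi]
      right_inv := by
        rintro ⟨f, g⟩
        ext i <;> by_cases hi : J i <;> simp [mix, hi] }
  have h1 : pr (prodW p) E =
      ∑ q : (ι → V) × (ι → V), prodW p q.1 * prodW p q.2 * (if E q.1 then 1 else 0) := by
    rw [Fintype.sum_prod_type]
    unfold pr
    refine Finset.sum_congr rfl fun f _ => ?_
    have : ∑ g, prodW p f * prodW p g * (if E f then (1:ℝ) else 0) =
        (prodW p f * (if E f then (1:ℝ) else 0)) * ∑ g, prodW p g := by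
      rw [Finset.mul_sum]
      refine Finset.sum_congr rfl fun g _ => ?_
      ring
    simp only
    rw [this, hW.2]
    by_cases hE : E f <;> simp [hE]
  have h2 : ∑ q : (ι → V) × (ι → V), prodW p q.1 * prodW p q.2 * (if E q.1 then (1:ℝ) else 0) =
      ∑ q : (ι → V) × (ι → V), prodW p q.1 * prodW p q.2 *
        (if E (mix J q.1 q.2) then (1:ℝ) else 0) := by
    rw [← Equiv.sum_comp φ]
    refine Finset.sum_congr rfl fun q _ => ?_
    simp only [φ, Equiv.coe_fn_mk]
    rw [prodW_mix]
  rw [h1, h2, Fintype.sum_prod_type]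
  have h3 : ∀ f : ι → V, ∑ g, prodW p f * prodW p g * (if E (mix J f g) then (1:ℝ) else 0)
      ≤ prodW p f * β := by
    intro f
    rcases (hW.1 f).lt_or_eq with hf | hf
    · have := h f hf
      have h4 : ∑ g, prodW p f * prodW p g * (if E (mix J f g) then (1:ℝ) else 0) =
          prodW p f * pr (prodW p) (fun g => 0 < prodW p g ∧ E (mix J f g)) := by
        unfold pr
        rw [Finset.mul_sum]
        refine Finset.sum_congr rfl fun g _ => ?_
        rcases (hW.1 g).lt_or_eq with hg | hg
        · by_cases hE : E (mix J f g) <;> simp [hE, hg]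
        · rw [← hg]; simp
      rw [h4]
      exact mul_le_mul_of_nonneg_left this hf.le
    · rw [← hf]; simp
  calc _ ≤ ∑ f, prodW p f * β := Finset.sum_le_sum fun f _ => h3 f
    _ = β := by rw [← Finset.sum_mul, hW.2, one_mul]

end Product

section Minimax

variable {V : Type*} [Fintype V] [DecidableEq V]

/-- weights supported in `A` -/
def SuppIn (w : V → ℝ) (A : V → Prop) : Prop := ∀ v, ¬ A v → w v = 0

theorem single_prob (a : V) : IsProb (Pi.single a (1:ℝ) : V → ℝ) := by
  constructor
  · intro v
    by_cases h : v = a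
    · subst h; simp
    · simp [h]
  · simp

/-- The finite minimax theorem, as an alternative. -/
theorem minimax_alt (A B : V → Prop) (hA : ∃ a, A a) (hB : ∃ b, B b) (M : V → V → ℝ) (θ : ℝ) :
    (∃ u : V → ℝ, IsProb u ∧ SuppIn u A ∧ ∀ b, B b → θ ≤ ∑ a, u a * M a b) ∨
    (∃ u : V → ℝ, IsProb u ∧ SuppIn u B ∧ ∀ a, A a → ∑ b, u b * M a b < θ) := by
  classical
  let D : (V → Prop) → Set (V → ℝ) := fun A => {u | IsProb u ∧ SuppIn u A}
  have hDsub : ∀ A, D A = stdSimplex ℝ V ∩ ⋂ v ∈ {v | ¬ A v}, {u | u v = 0} := by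
    intro A
    ext u
    simp [D, IsProb, SuppIn, stdSimplex]
  have hne : ∀ A : V → Prop, (∃ a, A a) → (D A).Nonempty := by
    rintro A ⟨a, ha⟩
    refine ⟨Pi.single a 1, single_prob a, ?_⟩
    intro v hv
    have : v ≠ a := fun h => hv (h ▸ ha)
    simp [this]
  have hconv : ∀ A, Convex ℝ (D A) := by
    intro A u hu u' hu' a b ha hb hab
    refine ⟨⟨fun v => ?_, ?_⟩, fun v hv => ?_⟩
    · have h1 := hu.1.1 v
      have h2 := hu'.1.1 v
      simp only [Pi.add_apply, Pi.smul_apply, smul_eq_mul]
      positivity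
    · simp only [Pi.add_apply, Pi.smul_apply, smul_eq_mul]
      rw [Finset.sum_add_distrib, ← Finset.mul_sum, ← Finset.mul_sum, hu.1.2, hu'.1.2]
      linarith
    · simp only [Pi.add_apply, Pi.smul_apply, smul_eq_mul]
      rw [hu.2 v hv, hu'.2 v hv]
      ring
  have hcomp : ∀ A, IsCompact (D A) := by
    intro A
    rw [hDsub]
    refine (isCompact_stdSimplex ℝ V).inter_right ?_
    refine isClosed_biInter fun v _ => ?_
    exact isClosed_eq (continuous_apply v) continuous_const
  let F : (V → ℝ) → (V → ℝ) → ℝ := fun u' u => ∑ a, ∑ b, u a * u' b * M a b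
  have hF1 : ∀ u, Continuous (fun u' => F u' u) := by
    intro u
    fun_prop
  have hF2 : ∀ u', Continuous (fun u => F u' u) := by
    intro u'
    fun_prop
  have hlin1 : ∀ u u1 u2 (a b : ℝ), F (a • u1 + b • u2) u = a * F u1 u + b * F u2 u := by
    intro u u1 u2 a b
    simp only [F, Pi.add_apply, Pi.smul_apply, smul_eq_mul, Finset.mul_sum]
    rw [← Finset.sum_add_distrib]
    refine Finset.sum_congr rfl fun x _ => ?_
    rw [← Finset.sum_add_distrib]
    refine Finset.sum_congr rfl fun y _ => ?_
    ring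
  have hlin2 : ∀ u u1 u2 (a b : ℝ), F u (a • u1 + b • u2) = a * F u u1 + b * F u u2 := by
    intro u u1 u2 a b
    simp only [F, Pi.add_apply, Pi.smul_apply, smul_eq_mul, Finset.mul_sum]
    rw [← Finset.sum_add_distrib]
    refine Finset.sum_congr rfl fun x _ => ?_
    rw [← Finset.sum_add_distrib]
    refine Finset.sum_congr rfl fun y _ => ?_
    ring
  obtain ⟨u', hu', u, hu, hs⟩ := Sion.exists_isSaddlePointOn (X := D B) (Y := D A) (f := F)
    (hne B hB) (hconv B) (hcomp B)
    (fun y _ => (hF1 y).lowerSemicontinuous.lowerSemicontinuousOn _)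
    (fun y _ => by
      apply ConvexOn.quasiconvexOn
      refine ⟨hconv B, fun x _ x' _ a b _ _ _ => ?_⟩
      show F (a • x + b • x') y ≤ a • F x y + b • F x' y
      rw [hlin1]
      rfl)
    (hconv A) (hne A hA) (hcomp A)
    (fun x _ => (hF2 x).upperSemicontinuous.upperSemicontinuousOn _)
    (fun x _ => by
      apply ConcaveOn.quasiconcaveOn
      refine ⟨hconv A, fun y _ y' _ a b _ _ _ => ?_⟩
      show a • F x y + b • F x y' ≤ F x (a • y + b • y')
      rw [hlin2]
      rfl)
  have hsing : ∀ (A : V → Prop) a, A a → (Pi.single a (1:ℝ) : V → ℝ) ∈ D A := by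
    intro A a ha
    refine ⟨single_prob a, ?_⟩
    intro v hv
    have : v ≠ a := fun h => hv (h ▸ ha)
    simp [this]
  rcases le_or_gt θ (F u' u) with hθ | hθ
  · left
    refine ⟨u, hu.1, hu.2, fun b hb => ?_⟩
    have h1 := hs (Pi.single b 1) (hsing B b hb) u hu
    have h2 : F (Pi.single b 1) u = ∑ a, u a * M a b := by
      simp only [F]
      refine Finset.sum_congr rfl fun a _ => ?_
      rw [Finset.sum_eq_single b]
      · simp
      · intro c _ hc
        simp [hc]
      · simp
    linarith
  · right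
    refine ⟨u', hu'.1, hu'.2, fun a ha => ?_⟩
    have h1 := hs u' hu' (Pi.single a 1) (hsing A a ha)
    have h2 : F u' (Pi.single a 1) = ∑ b, u' b * M a b := by
      simp only [F]
      rw [Finset.sum_eq_single a]
      · refine Finset.sum_congr rfl fun b _ => ?_
        simp
      · intro c _ hc
        refine Finset.sum_eq_zero fun b _ => ?_
        simp [hc]
      · simp
    linarith

end Minimax

end Pool.Agent.H51.Tour
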