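import Pool.Agent.H51.Tour.NonCore

set_option autoImplicit false

/-!
The core case: some weights almost beat every vertex of a rich set.
-/

namespace Pool.Agent.H51.Tour

open Finset

section

variable {V : Type*} [Fintype V]

theorem sum_lt_of_prob {w : V → ℝ} (hw : IsProb w) {g : V → ℝ} {c : ℝ} (h : ∀ v, g v < c) :
    ∑ v, w v * g v < c := by
  have hpos : ∃ a, 0 < w a := by
    by_contra hcon
    push Not at hcon
    have : ∑ a, w a ≤ 0 := Finset.sum_nonpos fun a _ => hcon a
    rw [hw.2] at this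
    linarith
  obtain ⟨a, ha⟩ := hpos
  have h1 : ∑ v, w v * (g v - c) < 0 := by
    apply Finset.sum_neg'
    · intro b _
      exact mul_nonpos_of_nonneg_of_nonpos (hw.1 b) (by linarith [h b])
    · exact ⟨a, mem_univ a, mul_neg_of_pos_of_neg ha (by linarith [h a])⟩
  have h2 : ∑ v, w v * (g v - c) = ∑ v, w v * g v - c := by
    have h3 : ∀ v, w v * (g v - c) = w v * g v - w v * c := fun v => by ring
    simp_rw [h3]
    rw [Finset.sum_sub_distrib, ← Finset.sum_mul, hw.2, one_mul]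
  linarith

theorem pr_false {w : V → ℝ} {P : V → Prop} (h : ∀ v, ¬ P v) : pr w P = 0 := by
  unfold pr
  refine Finset.sum_eq_zero fun v _ => ?_
  rw [if_neg (h v)]

/-- Every total relation has a column of weight at least one half. -/
theorem exists_half {w : V → ℝ} (hw : IsProb w) (R : V → V → Prop) (hR : ∀ x y, R x y ∨ R y x) :
    ∃ y, 1 / 2 ≤ pr w (fun x => R x y) := by
  classical
  by_contra hcon
  push Not at hcon
  have h1 := sum_lt_of_prob hw hcon
  have h2 : ∑ y, w y * pr w (fun x => R x y) = ∑ y, ∑ x, w y * w x * (if R x y then 1 else 0) := by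
    refine Finset.sum_congr rfl fun y _ => ?_
    unfold pr
    rw [Finset.mul_sum]
    refine Finset.sum_congr rfl fun x _ => ?_
    split_ifs <;> simp
  have h3 : ∑ y, ∑ x, w y * w x * (if R x y then (1:ℝ) else 0) =
      ∑ y, ∑ x, w y * w x * (if R y x then (1:ℝ) else 0) := by
    conv_lhs => rw [Finset.sum_comm]
    refine Finset.sum_congr rfl fun y _ => Finset.sum_congr rfl fun x _ => ?_
    rw [mul_comm (w x) (w y)]
  have h4 : (1:ℝ) ≤ ∑ y, ∑ x, w y * w x * (if R x y then (1:ℝ) else 0) +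
      ∑ y, ∑ x, w y * w x * (if R y x then (1:ℝ) else 0) := by
    have h5 : (1:ℝ) = ∑ y, ∑ x, w y * w x := by
      simp_rw [← Finset.mul_sum]
      rw [hw.2]
      simp [hw.2]
    refine h5.le.trans ?_
    rw [← Finset.sum_add_distrib]
    refine Finset.sum_le_sum fun y _ => ?_
    rw [← Finset.sum_add_distrib]
    refine Finset.sum_le_sum fun x _ => ?_
    have h6 : 0 ≤ w y * w x := mul_nonneg (hw.1 y) (hw.1 x)
    rcases hR x y with h7 | h7
    · rw [if_pos h7]
      split_ifs <;> linarith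
    · rw [if_pos h7]
      split_ifs <;> linarith
  linarith

end

variable {V : Type*} [Fintype V] [DecidableEq V] {adj : V → V → Prop}

theorem core_sampling (hasym : ∀ u v, adj u v → ¬ adj v u)
    (htot : ∀ u v, u ≠ v → adj u v ∨ adj v u) (q : ℕ) (ε : ℝ) (hε : 0 ≤ ε)
    (hq : (5 : ℝ) * ((5 + 5 * q) * (5 + 5 * q)) * (4 * ε + (3 / 4) ^ (q - 2)) < 1)
    (ν : V → ℝ) (hν : IsProb ν) (Ω : V → Prop) (hΩ : Rich adj Ω 3)
    (hνΩ : ∀ v, Ω v → 1 - ε ≤ pr ν (fun a => adj a v)) :
    ∃ X : Finset V, X.card ≤ (5 + 5 * q) + (5 + 5 * q) * (5 + 5 * q) ∧ Good adj X := by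
  classical
  let T : V → V → Prop := fun x v => Ω v ∧ adj v x
  let Rel : V → V → Prop := fun x y => ∃ u : V → ℝ, IsProb u ∧ SuppIn u (T x) ∧
    ∀ v, T y v → 1 / 4 ≤ pr u (fun a => adj a v)
  have hT1 : ∀ x a, ∃ b, T x b ∧ adj b a := by
    intro x a
    obtain ⟨v, hv, hd⟩ := hΩ {x, a} (Finset.card_le_two.trans (by norm_num))
    exact ⟨v, ⟨hv, hd x (by simp)⟩, hd a (by simp)⟩
  have hRel : ∀ x y, Rel x y ∨ Rel y x := by
    intro x y
    obtain ⟨a0, ha0, -⟩ := hT1 x x
    obtain ⟨b0, hb0, -⟩ := hT1 y y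
    have key1 : ∀ (u : V → ℝ) (b : V), ∑ a, u a * (if adj a b then (1:ℝ) else 0) =
        pr u (fun a => adj a b) := by
      intro u b
      unfold pr
      refine Finset.sum_congr rfl fun a _ => ?_
      split_ifs <;> simp
    have key2 : ∀ (u : V → ℝ) (a : V), ∑ b, u b * (if adj a b then (1:ℝ) else 0) =
        pr u (fun b => adj a b) := by
      intro u b
      unfold pr
      refine Finset.sum_congr rfl fun a _ => ?_
      split_ifs <;> simp
    rcases minimax_alt (T x) (T y) ⟨a0, ha0⟩ ⟨b0, hb0⟩ (fun a b => if adj a b then 1 else 0)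
      (1 / 4) with ⟨u, hu, hs, h⟩ | ⟨u, hu, hs, h⟩
    · left
      refine ⟨u, hu, hs, fun v hv => ?_⟩
      have := h v hv
      rwa [key1] at this
    · right
      refine ⟨u, hu, hs, fun a ha => ?_⟩
      have h1 := h a ha
      rw [key2] at h1
      obtain ⟨b, hb, hba⟩ := hT1 x a
      have h2 := h b hb
      rw [key2] at h2
      have h3 : u a ≤ pr u (fun c => adj b c) := le_pr hu.1 hba
      have h4 := in_add_out hasym htot hu a
      linarith
  obtain ⟨y, hy⟩ := exists_half hν Rel hRel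
  have hy0 : 0 < pr ν (fun x => Rel x y) := by linarith
  set ν' := cond ν (fun x => Rel x y) with hν'def
  have hν' : IsProb ν' := cond_prob hν hy0
  have hν'Rel : ∀ x, 0 < ν' x → Rel x y := fun x hx =>
    of_cond_pos (w := ν) (P := fun x => Rel x y) hx
  have hν'Ω : ∀ v, Ω v → pr ν' (fun a => ¬ adj a v) ≤ 2 * ε := by
    intro v hv
    rw [hν'def, pr_cond, div_le_iff₀ hy0]
    have h1 : pr ν (fun a => Rel a y ∧ ¬ adj a v) ≤ pr ν (fun a => ¬ adj a v) :=
      pr_mono hν.1 fun a h => h.2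
    have h2 := pr_compl hν (fun a => adj a v)
    have h3 := hνΩ v hv
    nlinarith
  have hu : ∀ x, ∃ u : V → ℝ, IsProb u ∧ (Rel x y → SuppIn u (T x) ∧
      ∀ v, T y v → 1 / 4 ≤ pr u (fun a => adj a v)) := by
    intro x
    by_cases hx : Rel x y
    · obtain ⟨u, h1, h2, h3⟩ := hx
      exact ⟨u, h1, fun _ => ⟨h2, h3⟩⟩
    · exact ⟨Pi.single x 1, single_prob x, fun h => absurd h hx⟩
  choose u hup hur using hu
  have hspec : ∀ z z', ∃ v, T y v ∧ adj v z ∧ adj v z' := by
    intro z z'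
    obtain ⟨v, hv, hd⟩ := hΩ {y, z, z'} Finset.card_le_three
    exact ⟨v, ⟨hv, hd y (by simp)⟩, hd z (by simp), hd z' (by simp)⟩
  choose spec hspecT hspec1 hspec2 using hspec
  let ι := Fin 5 ⊕ (Fin 5 × Fin q × V)
  let p : ι → V → ℝ := Sum.elim (fun _ => ν') (fun t => u t.2.2)
  have hp : ∀ i, IsProb (p i) := by
    rintro (i | t)
    · exact hν'
    · exact hup _
  let d : (ι → V) → Fin 5 → Fin q → V := fun f i a => f (Sum.inr (i, a, f (Sum.inl i)))
  let e : (ι → V) → (Fin 5 ⊕ Fin 5 × Fin q) → V := fun f =>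
    Sum.elim (fun i => f (Sum.inl i)) (fun t => d f t.1 t.2)
  let idx : (Fin 5 ⊕ Fin 5 × Fin q) → Fin 5 := Sum.elim id Prod.fst
  let sp : (ι → V) → (Fin 5 ⊕ Fin 5 × Fin q) → (Fin 5 ⊕ Fin 5 × Fin q) → V :=
    fun f k k' => spec (e f k) (e f k')
  have hRelf : ∀ f, 0 < prodW p f → ∀ i, Rel (f (Sum.inl i)) y := by
    intro f hf i
    exact hν'Rel _ (pos_of_prodW_pos hp hf (Sum.inl i))
  have hdT : ∀ f, 0 < prodW p f → ∀ i a, T (f (Sum.inl i)) (d f i a) := by
    intro f hf i a
    have h1 := pos_of_prodW_pos hp hf (Sum.inr (i, a, f (Sum.inl i)))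
    by_contra hcon
    have h2 := (hur _ (hRelf f hf i)).1 _ hcon
    have h3 : p (Sum.inr (i, a, f (Sum.inl i))) (f (Sum.inr (i, a, f (Sum.inl i)))) = 0 := h2
    linarith
  -- resampling of `x_l` does not change elements of other groups
  have hE_l : ∀ (l : Fin 5) (f h : ι → V) (k : Fin 5 ⊕ Fin 5 × Fin q), l ≠ idx k →
      e (mix (Sum.elim (fun i => i = l) (fun _ => False)) f h) k = e f k := by
    intro l f h k hk
    have h1 : ∀ i, i ≠ l → mix (Sum.elim (fun i => i = l) (fun _ => False) : ι → Prop) f h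
        (Sum.inl i) = f (Sum.inl i) := fun i hi => mix_of_not f h hi
    have h2 : ∀ t, mix (Sum.elim (fun i => i = l) (fun _ => False) : ι → Prop) f h
        (Sum.inr t) = f (Sum.inr t) := fun t => mix_of_not f h (fun h => h)
    rcases k with i | ⟨i, a⟩
    · exact h1 i (Ne.symm hk)
    · show mix _ f h (Sum.inr (i, a, mix _ f h (Sum.inl i))) = f (Sum.inr (i, a, f (Sum.inl i)))
      rw [h2, h1 i (Ne.symm hk)]
  let E1 : Fin 5 → (Fin 5 ⊕ Fin 5 × Fin q) → (Fin 5 ⊕ Fin 5 × Fin q) → (ι → V) → Prop :=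
    fun l k k' f => (l ≠ idx k ∧ l ≠ idx k') ∧ ¬ adj (f (Sum.inl l)) (sp f k k')
  let E2 : Fin 5 → (Fin 5 ⊕ Fin 5 × Fin q) → (ι → V) → Prop :=
    fun l k f => (l ≠ idx k ∧ ∃ t, k = Sum.inr t) ∧ ¬ adj (f (Sum.inl l)) (e f k)
  let used : Fin 5 → (Fin 5 ⊕ Fin 5 × Fin q) → (Fin 5 ⊕ Fin 5 × Fin q) → Finset (Fin q) :=
    fun l k k' => univ.filter (fun a => k = Sum.inr (l, a)) ∪
      univ.filter (fun a => k' = Sum.inr (l, a))
  let E3 : Fin 5 → (Fin 5 ⊕ Fin 5 × Fin q) → (Fin 5 ⊕ Fin 5 × Fin q) → (ι → V) → Prop :=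
    fun l k k' f => ∀ a ∈ univ \ used l k k', ¬ adj (d f l a) (sp f k k')
  have hused : ∀ l k k', (used l k k').card ≤ 2 := by
    intro l k k'
    have h1 : ∀ k : Fin 5 ⊕ Fin 5 × Fin q,
        ((univ : Finset (Fin q)).filter (fun a => k = Sum.inr (l, a))).card ≤ 1 := by
      intro k
      rw [Finset.card_le_one]
      intro a ha b hb
      simp only [mem_filter, mem_univ, true_and] at ha hb
      rw [ha] at hb
      have := Sum.inr_injective hb
      exact (Prod.mk.inj this).2
    have h2 := h1 k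
    have h3 := h1 k'
    have h4 : (used l k k').card ≤ _ := Finset.card_union_le _ _
    omega
  have hE1 : ∀ l k k', pr (prodW p) (E1 l k k') ≤ 2 * ε := by
    intro l k k'
    by_cases hl : l ≠ idx k ∧ l ≠ idx k'
    · let J : ι → Prop := Sum.elim (fun i => i = l) (fun _ => False)
      apply pr_le_of_resample hp J
      intro f _
      refine le_trans (pr_mono (prodW_prob hp).1 ?_)
        (pr_single_le hp (Sum.inl l) (fun a => ¬ adj a (sp f k k')) (2 * ε)
          (hν'Ω _ (hspecT _ _).1))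
      rintro h ⟨-, -, hh⟩
      have h1 : sp (mix J f h) k k' = sp f k k' := by
        simp only [sp]
        have a1 : e (mix J f h) k = e f k := by convert hE_l l f h k hl.1
        have a2 : e (mix J f h) k' = e f k' := by convert hE_l l f h k' hl.2
        rw [a1, a2]
      have h2 : mix J f h (Sum.inl l) = h (Sum.inl l) := mix_of f h rfl
      rw [h1, h2] at hh
      exact hh
    · rw [pr_false (fun f hf => hl hf.1)]
      positivity
  have hE2 : ∀ l k, pr (prodW p) (E2 l k) ≤ 2 * ε := by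
    intro l k
    by_cases hl : l ≠ idx k ∧ ∃ t, k = Sum.inr t
    · let J : ι → Prop := Sum.elim (fun i => i = l) (fun _ => False)
      apply pr_le_of_resample hp J
      intro f hf
      have hΩe : Ω (e f k) := by
        obtain ⟨-, t, rfl⟩ := hl
        exact (hdT f hf t.1 t.2).1
      refine le_trans (pr_mono (prodW_prob hp).1 ?_)
        (pr_single_le hp (Sum.inl l) (fun a => ¬ adj a (e f k)) (2 * ε) (hν'Ω _ hΩe))
      rintro h ⟨-, -, hh⟩
      have h1 : e (mix J f h) k = e f k := by convert hE_l l f h k hl.1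
      have h2 : mix J f h (Sum.inl l) = h (Sum.inl l) := mix_of f h rfl
      rw [h1, h2] at hh
      exact hh
    · rw [pr_false (fun f hf => hl hf.1)]
      positivity
  have hE3 : ∀ l k k', pr (prodW p) (E3 l k k') ≤ (3 / 4) ^ (q - 2) := by
    intro l k k'
    let J : ι → Prop := Sum.elim (fun _ => False)
      (fun t => t.1 = l ∧ t.2.1 ∈ univ \ used l k k')
    apply pr_le_of_resample hp J
    intro f hf
    have h1 : ∀ h i, mix J f h (Sum.inl i) = f (Sum.inl i) :=
      fun h i => mix_of_not f h (fun h => h)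
    have h2 : ∀ h a b, a ∈ univ \ used l k k' →
        mix J f h (Sum.inr (l, a, b)) = h (Sum.inr (l, a, b)) :=
      fun h a b ha => mix_of f h ⟨rfl, ha⟩
    have hek : ∀ h, e (mix J f h) k = e f k := by
      intro h
      rcases hk : k with i | ⟨i, a⟩
      · exact h1 h i
      · show mix J f h (Sum.inr (i, a, mix J f h (Sum.inl i))) = f (Sum.inr (i, a, f (Sum.inl i)))
        rw [h1, mix_of_not]
        rintro ⟨h3, h4⟩
        have h3' : i = l := h3
        have h4' : a ∈ univ \ used l k k' := h4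
        subst h3'
        simp [used, hk] at h4'
    have hek' : ∀ h, e (mix J f h) k' = e f k' := by
      intro h
      rcases hk : k' with i | ⟨i, a⟩
      · exact h1 h i
      · show mix J f h (Sum.inr (i, a, mix J f h (Sum.inl i))) = f (Sum.inr (i, a, f (Sum.inl i)))
        rw [h1, mix_of_not]
        rintro ⟨h3, h4⟩
        have h3' : i = l := h3
        have h4' : a ∈ univ \ used l k k' := h4
        subst h3'
        simp [used, hk] at h4'
    have hsp : ∀ h, sp (mix J f h) k k' = sp f k k' := by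
      intro h
      simp only [sp]
      rw [hek, hek']
    have hinj : Function.Injective (fun a : Fin q => (Sum.inr (l, a, f (Sum.inl l)) : ι)) := by
      intro a b hab
      have := Sum.inr_injective hab
      exact (Prod.mk.inj (Prod.mk.inj this).2).1
    have h3 := pr_rect_le hp ((univ \ used l k k').map ⟨_, hinj⟩)
      (fun _ a => ¬ adj a (sp f k k')) (3 / 4) (by
        intro i hi
        simp only [Finset.mem_map, Function.Embedding.coeFn_mk] at hi
        obtain ⟨a, _, rfl⟩ := hi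
        show pr (u (f (Sum.inl l))) (fun a => ¬ adj a (sp f k k')) ≤ 3 / 4
        have h4 := pr_compl (hup (f (Sum.inl l))) (fun a => adj a (sp f k k'))
        have h5 := (hur _ (hRelf f hf l)).2 (sp f k k') (hspecT _ _)
        linarith)
    rw [Finset.card_map] at h3
    have hcard : q - 2 ≤ (univ \ used l k k').card := by
      rw [Finset.card_sdiff_of_subset (Finset.subset_univ _), Finset.card_univ, Fintype.card_fin]
      have := hused l k k'
      omega
    have h4 : ((3:ℝ) / 4) ^ (univ \ used l k k').card ≤ (3 / 4) ^ (q - 2) :=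
      pow_le_pow_of_le_one (by norm_num) (by norm_num) hcard
    refine le_trans (pr_mono (prodW_prob hp).1 ?_) (h3.trans h4)
    rintro h ⟨-, hh⟩ i hi
    simp only [Finset.mem_map, Function.Embedding.coeFn_mk] at hi
    obtain ⟨a, ha, rfl⟩ := hi
    have h5 := hh a ha
    have h6 : d (mix J f h) l a = h (Sum.inr (l, a, f (Sum.inl l))) := by
      simp only [d]
      rw [h1, h2 h a _ ha]
    rw [hsp, h6] at h5
    exact h5
  obtain ⟨f, hf, hfE⟩ := exists_good
    (K := Fin 5 × (Fin 5 ⊕ Fin 5 × Fin q) × (Fin 5 ⊕ Fin 5 × Fin q)) (prodW_prob hp)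
    (fun t f => (E1 t.1 t.2.1 t.2.2 f ∨ E2 t.1 t.2.1 f) ∨ E3 t.1 t.2.1 t.2.2 f)
    (4 * ε + (3 / 4) ^ (q - 2)) (by
      rintro ⟨l, k, k'⟩
      have a1 := hE1 l k k'
      have a2 := hE2 l k
      have a3 := hE3 l k k'
      have b1 := pr_le_add (prodW_prob hp).1 (P := fun f => (E1 l k k' f ∨ E2 l k f) ∨
        E3 l k k' f) (Q := fun f => E1 l k k' f ∨ E2 l k f)
        (R := fun f => E3 l k k' f) (fun v h => h)
      have b2 := pr_le_add (prodW_prob hp).1 (P := fun f => E1 l k k' f ∨ E2 l k f)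
        (Q := E1 l k k') (R := E2 l k) (fun v h => h)
      have a3' : pr (prodW p) (fun f => E3 l k k' f) ≤ (3 / 4) ^ (q - 2) := a3
      show pr (prodW p) (fun f => (E1 l k k' f ∨ E2 l k f) ∨ E3 l k k' f) ≤ _
      linarith)
    (by
      simp only [Fintype.card_prod, Fintype.card_sum, Fintype.card_fin]
      refine lt_of_eq_of_lt ?_ hq
      push_cast
      ring)
  have n1 : ∀ l k k', l ≠ idx k → l ≠ idx k' → adj (f (Sum.inl l)) (sp f k k') := by
    intro l k k' h1 h2
    by_contra hcon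
    exact hfE (l, k, k') (Or.inl (Or.inl ⟨⟨h1, h2⟩, hcon⟩))
  have n2 : ∀ l i a, l ≠ i → adj (f (Sum.inl l)) (d f i a) := by
    intro l i a h1
    by_contra hcon
    exact hfE (l, Sum.inr (i, a), Sum.inr (i, a))
      (Or.inl (Or.inr ⟨⟨h1, ⟨(i, a), rfl⟩⟩, hcon⟩))
  have n3 : ∀ l k k', ∃ a, adj (d f l a) (sp f k k') := by
    intro l k k'
    by_contra hcon
    push Not at hcon
    exact hfE (l, k, k') (Or.inr fun a _ => hcon a)
  have pick : ∀ S : Finset (Fin 5), S.card ≤ 4 → ∃ l, l ∉ S := by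
    intro S hS
    by_contra hcon
    push Not at hcon
    have : S = univ := Finset.eq_univ_iff_forall.mpr hcon
    rw [this] at hS
    simp at hS
  have me : ∀ k, e f k ∈ (univ.image (e f)) ∪
      (univ.image (fun t : (Fin 5 ⊕ Fin 5 × Fin q) × (Fin 5 ⊕ Fin 5 × Fin q) =>
        sp f t.1 t.2)) := fun k => by simp
  have ms : ∀ k k', sp f k k' ∈ (univ.image (e f)) ∪
      (univ.image (fun t : (Fin 5 ⊕ Fin 5 × Fin q) × (Fin 5 ⊕ Fin 5 × Fin q) =>
        sp f t.1 t.2)) := fun k k' => by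
    rw [mem_union, mem_image, mem_image]
    exact Or.inr ⟨(k, k'), mem_univ _, rfl⟩
  -- an element and a special vertex
  have hes : ∀ k m m', ∃ z ∈ (univ.image (e f)) ∪
      (univ.image (fun t : (Fin 5 ⊕ Fin 5 × Fin q) × (Fin 5 ⊕ Fin 5 × Fin q) =>
        sp f t.1 t.2)), adj z (e f k) ∧ adj z (sp f m m') := by
    intro k m m'
    rcases k with i | ⟨i, a⟩
    · obtain ⟨a, ha⟩ := n3 i m m'
      exact ⟨e f (Sum.inr (i, a)), me _, (hdT f hf i a).2, ha⟩
    · obtain ⟨l, hl⟩ := pick {i, idx m, idx m'} (Finset.card_le_three.trans (by norm_num))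
      simp only [mem_insert, mem_singleton, not_or] at hl
      exact ⟨e f (Sum.inl l), me _, n2 l i a hl.1, n1 l m m' hl.2.1 hl.2.2⟩
  refine ⟨(univ.image (e f)) ∪
      (univ.image (fun t : (Fin 5 ⊕ Fin 5 × Fin q) × (Fin 5 ⊕ Fin 5 × Fin q) =>
        sp f t.1 t.2)), ?_, ⟨e f (Sum.inl 0), me _⟩, ?_⟩
  · refine (Finset.card_union_le _ _).trans ?_
    have h1 : (univ.image (e f)).card ≤ 5 + 5 * q := by
      refine Finset.card_image_le.trans ?_
      simp
    have h2 : (univ.image (fun t : (Fin 5 ⊕ Fin 5 × Fin q) × (Fin 5 ⊕ Fin 5 × Fin q) =>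
        sp f t.1 t.2)).card ≤ (5 + 5 * q) * (5 + 5 * q) := by
      refine Finset.card_image_le.trans ?_
      simp
    omega
  · intro x hx z hz
    rw [mem_union, mem_image, mem_image] at hx hz
    rcases hx with ⟨k, -, rfl⟩ | ⟨⟨k, k'⟩, -, rfl⟩ <;>
      rcases hz with ⟨m, -, rfl⟩ | ⟨⟨m, m'⟩, -, rfl⟩
    · exact ⟨sp f k m, ms _ _, hspec1 _ _, hspec2 _ _⟩
    · exact hes k m m'
    · obtain ⟨z, hz, h1, h2⟩ := hes m k k'
      exact ⟨z, hz, h2, h1⟩
    · obtain ⟨l, hl⟩ := pick {idx k, idx k', idx m, idx m'} Finset.card_le_four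
      simp only [mem_insert, mem_singleton, not_or] at hl
      exact ⟨e f (Sum.inl l), me _, n1 l k k' hl.1 hl.2.1, n1 l m m' hl.2.2.1 hl.2.2.2⟩

end Pool.Agent.H51.Tour
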