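import Pool.Agent.H51.Tour.Rich

set_option autoImplicit false

/-!
The non-core case: sampling from the optimal weights.
-/

namespace Pool.Agent.H51.Tour

open Finset

section

variable {ι V : Type*} [Fintype ι] [DecidableEq ι] [Fintype V]

omit [Fintype ι] [DecidableEq ι] [Fintype V] in
theorem mix_of {J : ι → Prop} [DecidablePred J] (f h : ι → V) {i : ι} (hi : J i) :
    mix J f h i = h i := if_pos hi

omit [Fintype ι] [DecidableEq ι] [Fintype V] in
theorem mix_of_not {J : ι → Prop} [DecidablePred J] (f h : ι → V) {i : ι} (hi : ¬ J i) :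
    mix J f h i = f i := if_neg hi

theorem pr_single_le {p : ι → V → ℝ} (hp : ∀ i, IsProb (p i)) (i : ι)
    (Q : V → Prop) (β : ℝ) (hQ : pr (p i) Q ≤ β) :
    pr (prodW p) (fun f => Q (f i)) ≤ β := by
  have h := pr_rect_le hp {i} (fun _ => Q) β (by simpa using hQ)
  simpa using h

end

/-- Every pair of vertices of `X` is beaten by a vertex of `X`. -/
def Good {V : Type*} (adj : V → V → Prop) (X : Finset V) : Prop :=
  X.Nonempty ∧ ∀ x ∈ X, ∀ y ∈ X, ∃ z ∈ X, adj z x ∧ adj z y

variable {V : Type*} [Fintype V] [DecidableEq V] {adj : V → V → Prop}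

theorem nonCore_sampling (hasym : ∀ u v, adj u v → ¬ adj v u)
    (htot : ∀ u v, u ≠ v → adj u v ∨ adj v u) (s : ℝ) (hs : 0 < s) (hs1 : s ≤ 1 / 2)
    (m : ℕ) (τ : ℝ) (hτ : 0 < τ) (hm1 : 1 ≤ m)
    (hm : (m:ℝ) ^ 5 * (2 * τ + 2 * (1 - s) ^ (m - 4)) < 1)
    (n1 : ℕ) (hn1 : 1 / s + 3 * (1 / τ) ≤ n1)
    (hNC : ∀ ν : V → ℝ, IsProb ν → ¬ Rich adj (fun v => 1 - 18 * s ≤ pr ν (fun a => adj a v)) 3)
    (hV : Rich adj (fun _ => True) (n1 + 2)) :
    ∃ X : Finset V, X.card ≤ m + m * m ∧ Good adj X := by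
  classical
  obtain ⟨v0, -, -⟩ := hV ∅ (by simp)
  obtain ⟨w, hw, hopt⟩ := exists_optimal adj ⟨v0⟩
  -- spread-out weights on the common in-neighbourhoods
  have hη : ∀ a b : V, ∃ η : V → ℝ, IsProb η ∧ SuppIn η (fun v => adj v a ∧ adj v b) ∧
      ∀ x, pr η (fun v => pr w (fun a => adj a x ∧ adj a v) < s) ≤ τ := by
    intro a b
    apply spread_claim hasym htot s τ hs hs1 hτ w hw hopt hNC _ n1 hn1
    intro D hD
    obtain ⟨v, -, hv⟩ := hV (insert a (insert b D)) (by
      have h1 := Finset.card_insert_le a (insert b D)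
      have h2 := Finset.card_insert_le b D
      omega)
    exact ⟨v, ⟨hv a (by simp), hv b (by simp)⟩, fun d hd => hv d (by simp [hd])⟩
  choose η hηp hηs hηb using hη
  let ι := Fin m ⊕ (Fin m × Fin m × V × V)
  let p : ι → V → ℝ := Sum.elim (fun _ => w) (fun q => η q.2.2.1 q.2.2.2)
  have hp : ∀ i, IsProb (p i) := by
    rintro (i | q)
    · exact hw
    · exact hηp _ _
  let c : (ι → V) → Fin m → V := fun f k => f (Sum.inl k)
  let vv : (ι → V) → Fin m → Fin m → V :=
    fun f i j => f (Sum.inr (i, j, f (Sum.inl i), f (Sum.inl j)))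
  let bad : V → V → Prop := fun x v => pr w (fun a => adj a x ∧ adj a v) < s
  have h1s : (0:ℝ) ≤ 1 - s := by linarith
  have h1s' : 1 - s ≤ 1 := by linarith
  -- hitting
  have hit : ∀ (x v : V), ¬ bad x v → ∀ L : Finset (Fin m), m - 4 ≤ L.card →
      pr (prodW p) (fun h => ∀ l ∈ L, ¬ (adj (h (Sum.inl l)) x ∧ adj (h (Sum.inl l)) v))
        ≤ (1 - s) ^ (m - 4) := by
    intro x v hxv L hL
    have h1 := pr_rect_le hp (L.map ⟨Sum.inl, Sum.inl_injective⟩)
      (fun _ a => ¬ (adj a x ∧ adj a v)) (1 - s) (by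
        intro i hi
        simp only [Finset.mem_map, Function.Embedding.coeFn_mk] at hi
        obtain ⟨l, _, rfl⟩ := hi
        show pr w (fun a => ¬ (adj a x ∧ adj a v)) ≤ 1 - s
        have h2 := pr_compl hw (fun a => adj a x ∧ adj a v)
        have h3 : s ≤ pr w (fun a => adj a x ∧ adj a v) := not_lt.mp hxv
        linarith)
    rw [Finset.card_map] at h1
    have h2 : (1 - s) ^ L.card ≤ (1 - s) ^ (m - 4) := pow_le_pow_of_le_one h1s h1s' hL
    refine le_trans (pr_mono (prodW_prob hp).1 ?_) (h1.trans h2)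
    intro h hh i hi
    simp only [Finset.mem_map, Function.Embedding.coeFn_mk] at hi
    obtain ⟨l, hl, rfl⟩ := hi
    exact hh l hl
  have cardL : ∀ S : Finset (Fin m), S.card ≤ 4 → m - 4 ≤ (univ \ S).card := by
    intro S hS
    rw [Finset.card_sdiff_of_subset (Finset.subset_univ S), Finset.card_univ, Fintype.card_fin]
    omega
  -- the bad events
  let E1 : Fin m → Fin m → Fin m → (ι → V) → Prop := fun k i j f => bad (c f k) (vv f i j)
  let E2 : Fin m → Fin m → Fin m → Fin m → (ι → V) → Prop :=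
    fun i j i' j' f => ¬ (i' = i ∧ j' = j) ∧ bad (vv f i' j') (vv f i j)
  let E3 : Fin m → Fin m → Fin m → (ι → V) → Prop := fun k i j f =>
    ¬ bad (c f k) (vv f i j) ∧
      ∀ l ∈ univ \ ({k, i, j} : Finset (Fin m)), ¬ (adj (c f l) (c f k) ∧ adj (c f l) (vv f i j))
  let E4 : Fin m → Fin m → Fin m → Fin m → (ι → V) → Prop := fun i j i' j' f =>
    ¬ bad (vv f i' j') (vv f i j) ∧
      ∀ l ∈ univ \ ({i, j, i', j'} : Finset (Fin m)),
        ¬ (adj (c f l) (vv f i' j') ∧ adj (c f l) (vv f i j))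
  have hE1 : ∀ k i j, pr (prodW p) (E1 k i j) ≤ τ := by
    intro k i j
    let J : ι → Prop := Sum.elim (fun _ => False) (fun _ => True)
    apply pr_le_of_resample hp J
    intro f _
    refine le_trans (pr_mono (prodW_prob hp).1 ?_)
      (pr_single_le hp (Sum.inr (i, j, f (Sum.inl i), f (Sum.inl j)))
        (fun v => bad (f (Sum.inl k)) v) τ (hηb _ _ _))
    rintro h ⟨-, hh⟩
    have h1 : ∀ l, mix J f h (Sum.inl l) = f (Sum.inl l) := fun l => mix_of_not f h (fun h => h)
    have h2 : ∀ q, mix J f h (Sum.inr q) = h (Sum.inr q) := fun q => mix_of f h trivial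
    simp only [E1, c, vv, h1, h2] at hh
    exact hh
  have hE2 : ∀ i j i' j', pr (prodW p) (E2 i j i' j') ≤ τ := by
    intro i j i' j'
    let J : ι → Prop := Sum.elim (fun _ => False) (fun q => q.1 = i ∧ q.2.1 = j)
    apply pr_le_of_resample hp J
    intro f _
    refine le_trans (pr_mono (prodW_prob hp).1 ?_)
      (pr_single_le hp (Sum.inr (i, j, f (Sum.inl i), f (Sum.inl j)))
        (fun v => bad (vv f i' j') v) τ (hηb _ _ _))
    rintro h ⟨-, hne, hh⟩
    have h1 : ∀ l, mix J f h (Sum.inl l) = f (Sum.inl l) := fun l => mix_of_not f h (fun h => h)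
    have h2 : ∀ a b, mix J f h (Sum.inr (i, j, a, b)) = h (Sum.inr (i, j, a, b)) :=
      fun a b => mix_of f h ⟨rfl, rfl⟩
    have h3 : ∀ a b, mix J f h (Sum.inr (i', j', a, b)) = f (Sum.inr (i', j', a, b)) :=
      fun a b => mix_of_not f h hne
    simp only [vv, h1, h2, h3] at hh
    exact hh
  have hE3 : ∀ k i j, pr (prodW p) (E3 k i j) ≤ (1 - s) ^ (m - 4) := by
    intro k i j
    let J : ι → Prop := Sum.elim (fun l => l ∈ univ \ ({k, i, j} : Finset (Fin m))) (fun _ => False)
    apply pr_le_of_resample hp J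
    intro f _
    have h1 : ∀ h l, (l = k ∨ l = i ∨ l = j) → mix J f h (Sum.inl l) = f (Sum.inl l) :=
      fun h l hl => mix_of_not f h (by simp [J]; tauto)
    have h2 : ∀ h l, l ∈ univ \ ({k, i, j} : Finset (Fin m)) →
        mix J f h (Sum.inl l) = h (Sum.inl l) := fun h l hl => mix_of f h hl
    have h3 : ∀ h q, mix J f h (Sum.inr q) = f (Sum.inr q) :=
      fun h q => mix_of_not f h (fun h => h)
    have hck : ∀ h, c (mix J f h) k = c f k := fun h => h1 h k (Or.inl rfl)
    have hvv : ∀ h, vv (mix J f h) i j = vv f i j := by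
      intro h
      simp only [vv]
      rw [h3, h1 h i (by simp), h1 h j (by simp)]
    by_cases hb : bad (c f k) (vv f i j)
    · have h0 : pr (prodW p) (fun g => 0 < prodW p g ∧ E3 k i j (mix J f g)) = 0 := by
        unfold pr
        refine Finset.sum_eq_zero fun g _ => ?_
        rw [if_neg]
        rintro ⟨-, h1, -⟩
        rw [hck, hvv] at h1
        exact h1 hb
      rw [h0]
      positivity
    · refine le_trans (pr_mono (prodW_prob hp).1 ?_) (hit (c f k) (vv f i j) hb
        (univ \ ({k, i, j} : Finset (Fin m))) (cardL _ (Finset.card_le_three.trans (by norm_num))))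
      rintro h ⟨-, -, hh⟩ l hl
      have := hh l hl
      rw [hck, hvv] at this
      have hcl : c (mix J f h) l = h (Sum.inl l) := h2 h l hl
      rw [hcl] at this
      exact this
  have hE4 : ∀ i j i' j', pr (prodW p) (E4 i j i' j') ≤ (1 - s) ^ (m - 4) := by
    intro i j i' j'
    let J : ι → Prop :=
      Sum.elim (fun l => l ∈ univ \ ({i, j, i', j'} : Finset (Fin m))) (fun _ => False)
    apply pr_le_of_resample hp J
    intro f _
    have h1 : ∀ h l, (l = i ∨ l = j ∨ l = i' ∨ l = j') →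
        mix J f h (Sum.inl l) = f (Sum.inl l) :=
      fun h l hl => mix_of_not f h (by simp [J]; tauto)
    have h2 : ∀ h l, l ∈ univ \ ({i, j, i', j'} : Finset (Fin m)) →
        mix J f h (Sum.inl l) = h (Sum.inl l) := fun h l hl => mix_of f h hl
    have h3 : ∀ h q, mix J f h (Sum.inr q) = f (Sum.inr q) :=
      fun h q => mix_of_not f h (fun h => h)
    have hvv' : ∀ h, vv (mix J f h) i' j' = vv f i' j' := by
      intro h
      simp only [vv]
      rw [h3, h1 h i' (by simp), h1 h j' (by simp)]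
    have hvv : ∀ h, vv (mix J f h) i j = vv f i j := by
      intro h
      simp only [vv]
      rw [h3, h1 h i (by simp), h1 h j (by simp)]
    by_cases hb : bad (vv f i' j') (vv f i j)
    · have h0 : pr (prodW p) (fun g => 0 < prodW p g ∧ E4 i j i' j' (mix J f g)) = 0 := by
        unfold pr
        refine Finset.sum_eq_zero fun g _ => ?_
        rw [if_neg]
        rintro ⟨-, h1, -⟩
        rw [hvv', hvv] at h1
        exact h1 hb
      rw [h0]
      positivity
    · refine le_trans (pr_mono (prodW_prob hp).1 ?_) (hit (vv f i' j') (vv f i j) hb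
        (univ \ ({i, j, i', j'} : Finset (Fin m))) (cardL _ Finset.card_le_four))
      rintro h ⟨-, -, hh⟩ l hl
      have := hh l hl
      rw [hvv', hvv] at this
      have hcl : c (mix J f h) l = h (Sum.inl l) := h2 h l hl
      rw [hcl] at this
      exact this
  -- the union bound
  obtain ⟨f, hf, hfE⟩ := exists_good (K := Fin m × Fin m × Fin m × Fin m × Fin m) (prodW_prob hp)
    (fun q f => (E1 q.1 q.2.1 q.2.2.1 f ∨ E2 q.2.1 q.2.2.1 q.2.2.2.1 q.2.2.2.2 f) ∨
      (E3 q.1 q.2.1 q.2.2.1 f ∨ E4 q.2.1 q.2.2.1 q.2.2.2.1 q.2.2.2.2 f))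
    (2 * τ + 2 * (1 - s) ^ (m - 4)) (by
      rintro ⟨k, i, j, i', j'⟩
      have a1 := hE1 k i j
      have a2 := hE2 i j i' j'
      have a3 := hE3 k i j
      have a4 := hE4 i j i' j'
      have b1 := pr_le_add (prodW_prob hp).1 (P := fun f => (E1 k i j f ∨ E2 i j i' j' f) ∨
        (E3 k i j f ∨ E4 i j i' j' f)) (Q := fun f => E1 k i j f ∨ E2 i j i' j' f)
        (R := fun f => E3 k i j f ∨ E4 i j i' j' f) (fun v h => h)
      have b2 := pr_le_add (prodW_prob hp).1 (P := fun f => E1 k i j f ∨ E2 i j i' j' f)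
        (Q := E1 k i j) (R := E2 i j i' j') (fun v h => h)
      have b3 := pr_le_add (prodW_prob hp).1 (P := fun f => E3 k i j f ∨ E4 i j i' j' f)
        (Q := E3 k i j) (R := E4 i j i' j') (fun v h => h)
      linarith)
    (by
      simp only [Fintype.card_prod, Fintype.card_fin]
      refine lt_of_eq_of_lt ?_ hm
      push_cast
      ring)
  have hv_beats : ∀ i j, adj (vv f i j) (c f i) ∧ adj (vv f i j) (c f j) := by
    intro i j
    have h1 := pos_of_prodW_pos hp hf (Sum.inr (i, j, f (Sum.inl i), f (Sum.inl j)))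
    by_contra hcon
    have h2 := hηs (f (Sum.inl i)) (f (Sum.inl j)) _ hcon
    have h3 : p (Sum.inr (i, j, f (Sum.inl i), f (Sum.inl j)))
      (f (Sum.inr (i, j, f (Sum.inl i), f (Sum.inl j)))) = 0 := h2
    linarith
  have hcv : ∀ k i j, ∃ l, adj (c f l) (c f k) ∧ adj (c f l) (vv f i j) := by
    intro k i j
    have h := hfE (k, i, j, i, j)
    simp only [not_or] at h
    obtain ⟨⟨h1, -⟩, h3, -⟩ := h
    by_contra hcon
    push Not at hcon
    exact h3 ⟨h1, fun l _ hl => hcon l hl.1 hl.2⟩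
  have hvv : ∀ i j i' j', ∃ l, adj (c f l) (vv f i' j') ∧ adj (c f l) (vv f i j) := by
    intro i j i' j'
    by_cases hne : i' = i ∧ j' = j
    · obtain ⟨rfl, rfl⟩ := hne
      obtain ⟨l, -, hl⟩ := hcv i' i' j'
      exact ⟨l, hl, hl⟩
    · have h := hfE (i, i, j, i', j')
      simp only [not_or] at h
      obtain ⟨⟨-, h2⟩, -, h4⟩ := h
      by_contra hcon
      push Not at hcon
      exact h4 ⟨fun hb => h2 ⟨hne, hb⟩, fun l _ hl => hcon l hl.1 hl.2⟩
  refine ⟨(univ.image (c f)) ∪ (univ.image (fun q : Fin m × Fin m => vv f q.1 q.2)), ?_, ?_, ?_⟩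
  · refine (Finset.card_union_le _ _).trans ?_
    have h1 : (univ.image (c f)).card ≤ m := by
      refine Finset.card_image_le.trans ?_
      simp
    have h2 : (univ.image (fun q : Fin m × Fin m => vv f q.1 q.2)).card ≤ m * m := by
      refine Finset.card_image_le.trans ?_
      simp
    omega
  · exact ⟨c f ⟨0, hm1⟩, by simp⟩
  · have mc : ∀ l, c f l ∈ (univ.image (c f)) ∪
        (univ.image (fun q : Fin m × Fin m => vv f q.1 q.2)) := fun l => by simp
    have mv : ∀ i j, vv f i j ∈ (univ.image (c f)) ∪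
        (univ.image (fun q : Fin m × Fin m => vv f q.1 q.2)) := fun i j => by
      simp only [mem_union, mem_image, mem_univ, true_and]
      exact Or.inr ⟨(i, j), rfl⟩
    intro x hx y hy
    simp only [mem_union, mem_image, mem_univ, true_and, Prod.exists] at hx hy
    rcases hx with ⟨i, rfl⟩ | ⟨i, j, rfl⟩ <;> rcases hy with ⟨i', rfl⟩ | ⟨i', j', rfl⟩
    · exact ⟨vv f i i', mv _ _, hv_beats i i'⟩
    · obtain ⟨l, h1, h2⟩ := hcv i i' j'
      exact ⟨c f l, mc l, h1, h2⟩
    · obtain ⟨l, h1, h2⟩ := hcv i' i j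
      exact ⟨c f l, mc l, h2, h1⟩
    · obtain ⟨l, h1, h2⟩ := hvv i' j' i j
      exact ⟨c f l, mc l, h1, h2⟩

end Pool.Agent.H51.Tour
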