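import Pool.Agent.H51.Tour.Prob

set_option autoImplicit false

/-!
Rich sets of vertices of a tournament, and the key claim of the non-core case.
-/

namespace Pool.Agent.H51.Tour

open Finset

section Cond

variable {V : Type*} [Fintype V]

open Classical in
/-- `w` conditioned on `P`. -/
noncomputable def cond (w : V → ℝ) (P : V → Prop) (v : V) : ℝ :=
  (if P v then w v else 0) / pr w P

theorem cond_prob {w : V → ℝ} (hw : IsProb w) {P : V → Prop} (hP : 0 < pr w P) :
    IsProb (cond w P) := by
  classical
  constructor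
  · intro v
    unfold cond
    have := hw.1 v
    split_ifs
    · positivity
    · simp
  · unfold cond
    rw [← Finset.sum_div]
    exact div_self hP.ne'

theorem pr_cond (w : V → ℝ) (P Q : V → Prop) :
    pr (cond w P) Q = pr w (fun v => P v ∧ Q v) / pr w P := by
  classical
  have h : pr w (fun v => P v ∧ Q v) = ∑ v, if P v ∧ Q v then w v else 0 := by
    unfold pr
    refine Finset.sum_congr rfl fun v _ => ?_
    by_cases hP : P v <;> by_cases hQ : Q v <;> simp [hP, hQ]
  have h2 : pr (cond w P) Q = ∑ v, (if P v ∧ Q v then w v else 0) / pr w P := by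
    rw [pr]
    refine Finset.sum_congr rfl fun v _ => ?_
    by_cases hP : P v <;> by_cases hQ : Q v <;> simp [cond, hP, hQ]
  rw [h2, ← Finset.sum_div, ← h]

theorem of_cond_pos {w : V → ℝ} {P : V → Prop} {v : V} (h : 0 < cond w P v) : P v := by
  classical
  by_contra hP
  unfold cond at h
  simp [hP] at h

end Cond

section Rich

variable {V : Type*}

/-- Every set of at most `n` vertices is beaten by some vertex of `S`. -/
def Rich (adj : V → V → Prop) (S : V → Prop) (n : ℕ) : Prop :=
  ∀ D : Finset V, D.card ≤ n → ∃ v, S v ∧ ∀ d ∈ D, adj v d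

theorem Rich.mono {adj : V → V → Prop} {S S' : V → Prop} {n n' : ℕ} (h : Rich adj S n)
    (hS : ∀ v, S v → S' v) (hn : n' ≤ n) : Rich adj S' n' := by
  intro D hD
  obtain ⟨v, hv, hd⟩ := h D (hD.trans hn)
  exact ⟨v, hS v hv, hd⟩

theorem not_rich_union [DecidableEq V] {adj : V → V → Prop} {S : V → Prop} (M : Finset V)
    (T : V → V → Prop) (k : ℕ) (hST : ∀ v, S v → ∃ u ∈ M, T u v)
    (hT : ∀ u ∈ M, ¬ Rich adj (T u) k) : ¬ Rich adj S (M.card * k) := by
  intro hS
  have hT' : ∀ u, ∃ D : Finset V, D.card ≤ k ∧ (u ∈ M → ∀ v, T u v → ∃ d ∈ D, ¬ adj v d) := by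
    intro u
    by_cases hu : u ∈ M
    · have := hT u hu
      unfold Rich at this
      push Not at this
      obtain ⟨D, hD, h⟩ := this
      exact ⟨D, hD, fun _ => h⟩
    · exact ⟨∅, by simp, fun h => absurd h hu⟩
  choose D hD hDT using hT'
  obtain ⟨v, hv, hd⟩ := hS (M.biUnion D) (Finset.card_biUnion_le_card_mul M D k fun u _ => hD u)
  obtain ⟨u, hu, huv⟩ := hST v hv
  obtain ⟨d, hd', hn⟩ := hDT u hu v huv
  exact hn (hd d (Finset.mem_biUnion.mpr ⟨u, hu, hd'⟩))

end Rich

section Claim

variable {V : Type*} [Fintype V] [DecidableEq V]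

/-- Optimal weights: every vertex is beaten by at least as much weight as it beats. -/
theorem exists_optimal (adj : V → V → Prop) (hne : Nonempty V) :
    ∃ w : V → ℝ, IsProb w ∧ ∀ v, pr w (fun a => adj v a) ≤ pr w (fun a => adj a v) := by
  classical
  obtain ⟨x0⟩ := hne
  let M : V → V → ℝ := fun a b => (if adj a b then 1 else 0) - (if adj b a then 1 else 0)
  have key : ∀ (u : V → ℝ) (b : V), ∑ a, u a * M a b =
      pr u (fun a => adj a b) - pr u (fun a => adj b a) := by
    intro u b
    unfold pr
    rw [← Finset.sum_sub_distrib]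
    refine Finset.sum_congr rfl fun a _ => ?_
    simp only [M]
    split_ifs <;> simp
  rcases minimax_alt (fun _ : V => True) (fun _ : V => True) ⟨x0, trivial⟩ ⟨x0, trivial⟩ M 0 with
    ⟨u, hu, -, h⟩ | ⟨u, hu, -, h⟩
  · refine ⟨u, hu, fun v => ?_⟩
    have := h v trivial
    rw [key] at this
    linarith
  · exfalso
    have hskew : ∀ a b, M a b = - M b a := by
      intro a b
      simp only [M]
      ring
    have h0 : ∑ a, u a * ∑ b, u b * M a b = 0 := by
      have h1 : ∑ a, u a * ∑ b, u b * M a b = ∑ a, ∑ b, u a * u b * M a b := by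
        refine Finset.sum_congr rfl fun a _ => ?_
        rw [Finset.mul_sum]
        refine Finset.sum_congr rfl fun b _ => ?_
        ring
      have h2 : ∑ a, ∑ b, u a * u b * M a b = - ∑ a, ∑ b, u a * u b * M a b := by
        conv_lhs => rw [Finset.sum_comm]
        rw [← Finset.sum_neg_distrib]
        refine Finset.sum_congr rfl fun a _ => ?_
        rw [← Finset.sum_neg_distrib]
        refine Finset.sum_congr rfl fun b _ => ?_
        rw [hskew b a]
        ring
      linarith
    -- some `u a` is positive
    have h3 : ∑ a, u a * ∑ b, u b * M a b < 0 := by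
      have hpos : ∃ a, 0 < u a := by
        by_contra hcon
        push Not at hcon
        have : ∑ a, u a ≤ 0 := Finset.sum_nonpos fun a _ => hcon a
        rw [hu.2] at this
        linarith
      obtain ⟨a, ha⟩ := hpos
      apply Finset.sum_neg'
      · intro b _
        exact mul_nonpos_of_nonneg_of_nonpos (hu.1 b) (h b trivial).le
      · exact ⟨a, mem_univ a, mul_neg_of_pos_of_neg ha (h a trivial)⟩
    linarith

variable {adj : V → V → Prop}

/-- The weights of in-neighbours, out-neighbours and the vertex itself add up to one. -/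
theorem in_add_out (hasym : ∀ u v, adj u v → ¬ adj v u) (htot : ∀ u v, u ≠ v → adj u v ∨ adj v u)
    {w : V → ℝ} (hw : IsProb w) (v : V) :
    pr w (fun a => adj a v) + pr w (fun a => adj v a) + w v = 1 := by
  classical
  rw [← pr_eq w v, ← hw.2]
  unfold pr
  rw [← Finset.sum_add_distrib, ← Finset.sum_add_distrib]
  refine Finset.sum_congr rfl fun a _ => ?_
  by_cases h : a = v
  · subst h
    have : ¬ adj a a := fun h => hasym a a h h
    simp [this]
  · rcases htot a v h with h1 | h1
    · have := hasym _ _ h1
      simp [h, h1, this]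
    · have := hasym _ _ h1
      simp [h, h1, this]

/-- The main claim of the non-core case. -/
theorem spread_claim (hasym : ∀ u v, adj u v → ¬ adj v u)
    (htot : ∀ u v, u ≠ v → adj u v ∨ adj v u) (s τ : ℝ) (hs : 0 < s) (hs1 : s ≤ 1 / 2)
    (hτ : 0 < τ) (w : V → ℝ) (hw : IsProb w)
    (hopt : ∀ v, pr w (fun a => adj v a) ≤ pr w (fun a => adj a v))
    (hNC : ∀ ν : V → ℝ, IsProb ν → ¬ Rich adj (fun v => 1 - 18 * s ≤ pr ν (fun a => adj a v)) 3)
    (T : V → Prop) (n1 : ℕ) (hn1 : 1 / s + 3 * (1 / τ) ≤ n1) (hT : Rich adj T n1) :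
    ∃ η : V → ℝ, IsProb η ∧ SuppIn η T ∧
      ∀ x, pr η (fun v => pr w (fun a => adj a x ∧ adj a v) < s) ≤ τ := by
  classical
  obtain ⟨t0, ht0, -⟩ := hT ∅ (by simp)
  set bad : V → V → Prop := fun x v => pr w (fun a => adj a x ∧ adj a v) < s with hbad
  let M : V → V → ℝ := fun v x => - (if bad x v then 1 else 0)
  have key1 : ∀ (u : V → ℝ) (x : V), ∑ v, u v * M v x = - pr u (fun v => bad x v) := by
    intro u x
    unfold pr
    rw [← Finset.sum_neg_distrib]
    refine Finset.sum_congr rfl fun v _ => ?_
    simp only [M]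
    split_ifs <;> simp
  have key2 : ∀ (u : V → ℝ) (v : V), ∑ x, u x * M v x = - pr u (fun x => bad x v) := by
    intro u v
    unfold pr
    rw [← Finset.sum_neg_distrib]
    refine Finset.sum_congr rfl fun x _ => ?_
    simp only [M]
    split_ifs <;> simp
  rcases minimax_alt T (fun _ : V => True) ⟨t0, ht0⟩ ⟨t0, trivial⟩ M (-τ) with
    ⟨u, hu, hsupp, h⟩ | ⟨l, hl, -, h⟩
  · refine ⟨u, hu, hsupp, fun x => ?_⟩
    have := h x trivial
    rw [key1] at this
    linarith
  exfalso
  have hl' : ∀ v, T v → τ < pr l (fun x => bad x v) := by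
    intro v hv
    have := h v hv
    rw [key2] at this
    linarith
  -- the heavy vertices
  set Big : Finset V := univ.filter (fun v => s < w v) with hBig
  have hBigcard : (Big.card : ℝ) ≤ 1 / s := by
    rw [le_div_iff₀ hs]
    have h1 : ∑ v ∈ Big, s ≤ ∑ v ∈ Big, w v := Finset.sum_le_sum fun v hv => by
      simp only [hBig, mem_filter] at hv
      exact hv.2.le
    have h2 : ∑ v ∈ Big, w v ≤ ∑ v, w v :=
      Finset.sum_le_sum_of_subset_of_nonneg (subset_univ _) fun v _ _ => hw.1 v
    rw [Finset.sum_const, nsmul_eq_mul] at h1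
    rw [hw.2] at h2
    linarith
  set T0 : V → Prop := fun v => T v ∧ ∀ b ∈ Big, adj v b with hT0
  have hirr : ∀ v, ¬ adj v v := fun v h => hasym v v h h
  have hT0w : ∀ v, T0 v → w v ≤ s := by
    intro v hv
    by_contra hcon
    push Not at hcon
    exact hirr v (hv.2 v (by simp [hBig, hcon]))
  -- a maximal family with disjoint bad sets
  let P : Finset V → Prop := fun M => (∀ u ∈ M, T0 u) ∧
    ∀ u ∈ M, ∀ v ∈ M, u ≠ v → ∀ x, ¬ (bad x u ∧ bad x v)
  obtain ⟨N, hN, hNmax⟩ := Finset.exists_max_image ((univ : Finset (Finset V)).filter P)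
    Finset.card ⟨∅, by simp [P]⟩
  simp only [mem_filter, mem_univ, true_and] at hN hNmax
  have hNcard : (N.card : ℝ) ≤ 1 / τ := by
    rw [le_div_iff₀ hτ]
    have h1 : ∑ u ∈ N, τ ≤ ∑ u ∈ N, pr l (fun x => bad x u) := Finset.sum_le_sum fun u hu =>
      (hl' u (hN.1 u hu).1).le
    have h2 : ∑ u ∈ N, pr l (fun x => bad x u) ≤ 1 := by
      unfold pr
      rw [Finset.sum_comm, ← hl.2]
      refine Finset.sum_le_sum fun x _ => ?_
      by_cases hx : ∃ u ∈ N, bad x u
      · obtain ⟨u, hu, hxu⟩ := hx
        rw [Finset.sum_eq_single_of_mem u hu]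
        · simp [hxu]
        · intro v hv hvu
          have := hN.2 u hu v hv (Ne.symm hvu) x
          have : ¬ bad x v := fun h => this ⟨hxu, h⟩
          simp [this]
      · push Not at hx
        rw [Finset.sum_eq_zero]
        · exact hl.1 x
        · intro u hu
          simp [hx u hu]
    rw [Finset.sum_const, nsmul_eq_mul] at h1
    linarith
  have hcover : ∀ v, T0 v → ∃ u ∈ N, ∃ x, bad x u ∧ bad x v := by
    intro v hv
    by_contra hcon
    push Not at hcon
    have hvN : v ∉ N := by
      intro hvN
      have h1 := hl' v hv.1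
      have h2 : pr l (fun x => bad x v) = 0 := by
        unfold pr
        refine Finset.sum_eq_zero fun x _ => ?_
        have : ¬ bad x v := fun h => hcon v hvN x h h
        simp [this]
      linarith
    have hP : P (insert v N) := by
      constructor
      · intro u hu
        rcases Finset.mem_insert.mp hu with rfl | hu
        · exact hv
        · exact hN.1 u hu
      · intro a ha b hb hab x hx
        rcases Finset.mem_insert.mp ha with h1 | h1 <;> rcases Finset.mem_insert.mp hb with h2 | h2
        · exact hab (h1.trans h2.symm)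
        · subst h1
          exact hcon b h2 x hx.2 hx.1
        · subst h2
          exact hcon a h1 x hx.1 hx.2
        · exact hN.2 a h1 b h2 hab x hx
    have := hNmax _ hP
    rw [Finset.card_insert_of_notMem hvN] at this
    omega
  -- each class is concentrated, hence not rich
  have hclass : ∀ u ∈ N, ¬ Rich adj (fun v => T0 v ∧ ∃ x, bad x u ∧ bad x v) 3 := by
    intro u hu hrich
    have hTu := hN.1 u hu
    have hin : ∀ v, (1 - w v) / 2 ≤ pr w (fun a => adj a v) := by
      intro v
      have h1 := in_add_out hasym htot hw v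
      have h2 := hopt v
      linarith
    have hout : ∀ v, pr w (fun a => adj v a) ≤ (1 - w v) / 2 := by
      intro v
      have h1 := in_add_out hasym htot hw v
      have h2 := hopt v
      linarith
    have hpu : (1:ℝ) / 4 ≤ pr w (fun a => adj a u) := by
      have h1 := hin u
      have h2 := hT0w u hTu
      linarith
    have hpu0 : 0 < pr w (fun a => adj a u) := by linarith
    apply hNC (cond w (fun a => adj a u)) (cond_prob hw hpu0)
    refine hrich.mono ?_ le_rfl
    rintro v ⟨hv0, x, hxu, hxv⟩
    -- in-neighbours of a vertex of `T0` conflicting at `x` are mostly beaten by `x`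
    have hmain : ∀ z, T0 z → bad x z → pr w (fun a => adj a z ∧ ¬ adj x a) ≤ 2 * s := by
      intro z hz hxz
      by_cases hzx : adj z x
      · have h1 : pr w (fun a => adj a z ∧ ¬ adj x a) ≤ pr w (fun a => adj a x ∧ adj a z) := by
          apply pr_mono hw.1
          rintro a ⟨h1, h2⟩
          have hax : a ≠ x := by
            rintro rfl
            exact hasym _ _ h1 hzx
          rcases htot a x hax with h3 | h3
          · exact ⟨h3, h1⟩
          · exact absurd h3 h2
        have h2 : pr w (fun a => adj a x ∧ adj a z) < s := hxz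
        linarith
      · have hwx : w x ≤ s := by
          by_contra hcon
          push Not at hcon
          exact hzx (hz.2 x (by simp [hBig, hcon]))
        have h1 : pr w (fun a => adj a z ∧ ¬ adj x a) ≤
            pr w (fun a => a = x) + pr w (fun a => adj a x ∧ adj a z) := by
          apply pr_le_add hw.1
          rintro a ⟨h1, h2⟩
          by_cases hax : a = x
          · exact Or.inl hax
          · rcases htot a x hax with h3 | h3
            · exact Or.inr ⟨h3, h1⟩
            · exact absurd h3 h2
        rw [pr_eq] at h1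
        have h2 : pr w (fun a => adj a x ∧ adj a z) < s := hxz
        linarith
    have hu2 := hmain u hTu hxu
    have hv2 := hmain v hv0 hxv
    -- weight of `F` minus the in-neighbours of `v`
    have hF : pr w (fun a => adj x a ∧ ¬ adj a v) ≤ 5 / 2 * s := by
      have h1 := pr_split w (fun a => adj x a) (fun a => adj a v)
      have h2 := pr_split w (fun a => adj a v) (fun a => adj x a)
      have h3 : pr w (fun a => adj x a ∧ adj a v) = pr w (fun a => adj a v ∧ adj x a) :=
        pr_congr fun a => and_comm
      have h4 := hout x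
      have h5 := hin v
      have h6 := hT0w v hv0
      have h7 := hw.1 x
      linarith
    have htotal : pr w (fun a => adj a u ∧ ¬ adj a v) ≤ 9 / 2 * s := by
      have h1 : pr w (fun a => adj a u ∧ ¬ adj a v) ≤
          pr w (fun a => adj a u ∧ ¬ adj x a) + pr w (fun a => adj x a ∧ ¬ adj a v) := by
        apply pr_le_add hw.1
        rintro a ⟨h1, h2⟩
        by_cases h3 : adj x a
        · exact Or.inr ⟨h3, h2⟩
        · exact Or.inl ⟨h1, h3⟩
      linarith
    show 1 - 18 * s ≤ pr (cond w (fun a => adj a u)) (fun a => adj a v)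
    rw [pr_cond, le_div_iff₀ hpu0]
    have h1 := pr_split w (fun a => adj a u) (fun a => adj a v)
    nlinarith
  have hnot := not_rich_union (adj := adj) (S := T0) N
    (fun u v => T0 v ∧ ∃ x, bad x u ∧ bad x v) 3
    (fun v hv => by
      obtain ⟨u, hu, hx⟩ := hcover v hv
      exact ⟨u, hu, hv, hx⟩) hclass
  apply hnot
  intro D hD
  have hcard : (Big ∪ D).card ≤ n1 := by
    have h1 : (Big ∪ D).card ≤ Big.card + N.card * 3 := (Finset.card_union_le _ _).trans (by omega)
    have h2 : ((Big.card + N.card * 3 : ℕ) : ℝ) ≤ n1 := by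
      push_cast
      linarith
    exact h1.trans (by exact_mod_cast h2)
  obtain ⟨v, hv, hd⟩ := hT (Big ∪ D) hcard
  exact ⟨v, ⟨hv, fun b hb => hd b (Finset.mem_union_left _ hb)⟩,
    fun d hd' => hd d (Finset.mem_union_right _ hd')⟩

end Claim

end Pool.Agent.H51.Tour
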